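import Mathlib

/-!
# T-characterized subgroups are not transitive, even along dually embedded subgroups
-/

namespace Pool.Agent.Results.MP_24a371_gt.NotTransitive

open Filter Topology

/-- `s_v(Y) = {y : v_n(y) → 0}` for a sequence `v` of continuous characters `Y → 𝕋 = ℝ/ℤ`. -/
def sSub {Y : Type} [AddCommGroup Y] [TopologicalSpace Y]
    (v : ℕ → (Y →ₜ+ UnitAddCircle)) : AddSubgroup Y where
  carrier := {x | Tendsto (fun n => v n x) atTop (𝓝 0)}
  zero_mem' := by simp
  add_mem' := by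
    intro a b ha hb
    have := Tendsto.add ha hb
    simpa using this
  neg_mem' := by
    intro a ha
    have := Tendsto.neg ha
    simpa using this

/-- `u` is a T-sequence in the abstract abelian group `G`: some Hausdorff group topology on `G`
makes it converge to `0`. -/
def IsTSequence {G : Type} [AddCommGroup G] (u : ℕ → G) : Prop :=
  ∃ t : TopologicalSpace G, @IsTopologicalAddGroup G t _ ∧ @T2Space G t ∧
    Tendsto u atTop (@nhds G t 0)

/-- `H` is T-characterized in `Y`: `H = s_v(Y)` for a sequence `v` of continuous characters that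
is a T-sequence in the character group of `Y`. -/
def IsTCharacterized {Y : Type} [AddCommGroup Y] [TopologicalSpace Y]
    (H : AddSubgroup Y) : Prop :=
  ∃ v : ℕ → (Y →ₜ+ UnitAddCircle), IsTSequence v ∧ H = sSub v

/-- `H` is dually embedded in `Y`: every continuous character of `H` extends to `Y`. -/
def IsDuallyEmbedded {Y : Type} [AddCommGroup Y] [TopologicalSpace Y]
    (H : AddSubgroup Y) : Prop :=
  ∀ χ : H →ₜ+ UnitAddCircle, ∃ ψ : Y →ₜ+ UnitAddCircle, ∀ h : H, ψ h = χ h

/-- A sequence that is eventually in each member of a family of subgroups with trivial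
intersection is a T-sequence. -/
lemma isTSequence_of_subgroups {G : Type} [AddCommGroup G] (U : ℕ → AddSubgroup G) (u : ℕ → G)
    (hinf : ∀ g, (∀ m, g ∈ U m) → g = 0) (hu : ∀ m, ∀ᶠ n in atTop, u n ∈ U m) :
    IsTSequence u := by
  let _ : ∀ m, TopologicalSpace (G ⧸ U m) := fun _ => ⊥
  have : ∀ m, DiscreteTopology (G ⧸ U m) := fun _ => ⟨rfl⟩
  have : ∀ m, IsTopologicalAddGroup (G ⧸ U m) := fun _ => inferInstance
  let f : G →+ (∀ m, G ⧸ U m) := AddMonoidHom.pi (fun m => QuotientAddGroup.mk' (U m))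
  have hf : Function.Injective f := by
    rw [injective_iff_map_eq_zero]
    intro g hg
    apply hinf
    intro m
    have := congrFun hg m
    exact (QuotientAddGroup.eq_zero_iff g).1 this
  refine ⟨TopologicalSpace.induced f inferInstance, topologicalAddGroup_induced f, ?_, ?_⟩
  · let _ : TopologicalSpace G := TopologicalSpace.induced f inferInstance
    exact T2Space.of_injective_continuous hf continuous_induced_dom
  · rw [nhds_induced, tendsto_comap_iff, tendsto_pi_nhds]
    intro m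
    rw [map_zero]
    apply tendsto_const_nhds.congr'
    filter_upwards [hu m] with n hn
    exact ((QuotientAddGroup.eq_zero_iff (u n)).2 hn).symm

/-- The ambient (discrete) group of the example. -/
abbrev A : Type := ZMod 9 × (ℕ →₀ ZMod 3)

/-- The middle subgroup of the example: first coordinate killed by `3`. -/
noncomputable def A1 : AddSubgroup A where
  carrier := {x | 3 * x.1 = 0}
  zero_mem' := by simp
  add_mem' := by
    intro a b ha hb
    have ha' : 3 * a.1 = 0 := ha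
    have hb' : 3 * b.1 = 0 := hb
    show 3 * (a.1 + b.1) = 0
    rw [mul_add, ha', hb', add_zero]
  neg_mem' := by
    intro a ha
    have ha' : 3 * a.1 = 0 := ha
    show 3 * (-a.1) = 0
    rw [mul_neg, ha', neg_zero]

/-- The small subgroup of the example: first coordinate zero. -/
noncomputable def A0 : AddSubgroup A := (AddMonoidHom.fst (ZMod 9) (ℕ →₀ ZMod 3)).ker

/-- The character `x ↦ x.1 / 9 + (x.2)_n / 3`. -/
noncomputable def vv (n : ℕ) : A →+ UnitAddCircle :=
  (ZMod.toAddCircle (N := 9)).comp (AddMonoidHom.fst _ _) +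
    ((ZMod.toAddCircle (N := 3)).comp
      ((Finsupp.applyAddHom n).comp (AddMonoidHom.snd _ _)))

/-- The character `x ↦ x.1 / 3 + (x.2)_n / 3`. -/
noncomputable def ww (n : ℕ) : A →+ UnitAddCircle :=
  (ZMod.toAddCircle (N := 9)).comp ((AddMonoidHom.mulLeft 3).comp (AddMonoidHom.fst _ _)) +
    ((ZMod.toAddCircle (N := 3)).comp
      ((Finsupp.applyAddHom n).comp (AddMonoidHom.snd _ _)))

lemma vv_apply (n : ℕ) (x : A) :
    vv n x = ZMod.toAddCircle (N := 9) x.1 + ZMod.toAddCircle (N := 3) (x.2 n) := rfl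

lemma ww_apply (n : ℕ) (x : A) :
    ww n x = ZMod.toAddCircle (N := 9) (3 * x.1) + ZMod.toAddCircle (N := 3) (x.2 n) := rfl

lemma third : ZMod.toAddCircle (N := 9) 3 = ZMod.toAddCircle (N := 3) 1 := by
  have h1 := ZMod.toAddCircle_intCast (N := 9) 3
  have h2 := ZMod.toAddCircle_intCast (N := 3) 1
  push_cast at h1 h2
  rw [h1, h2]
  congr 1
  norm_num

/-- For a point `x` of `A`, the `n`-th coordinate is eventually zero. -/
lemma coord_eventually (y : ℕ →₀ ZMod 3) : ∀ᶠ n in atTop, y n = 0 := by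
  filter_upwards [eventually_gt_atTop (y.support.sup id)] with n hn
  by_contra h
  have := Finset.le_sup (f := id) (Finsupp.mem_support_iff.2 h)
  simp only [id] at this
  omega

lemma tendsto_vv (x : A) :
    Tendsto (fun n => vv n x) atTop (𝓝 0) ↔ x.1 = 0 := by
  have h : Tendsto (fun n => vv n x) atTop (𝓝 (ZMod.toAddCircle (N := 9) x.1)) := by
    apply tendsto_const_nhds.congr'
    filter_upwards [coord_eventually x.2] with n hn
    rw [vv_apply, hn, map_zero, add_zero]
  constructor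
  · intro h0
    have := tendsto_nhds_unique h h0
    exact ZMod.toAddCircle_injective 9 (by rw [this, map_zero])
  · intro h0
    rw [h0, map_zero] at h
    exact h

lemma tendsto_ww (x : A) :
    Tendsto (fun n => ww n x) atTop (𝓝 0) ↔ 3 * x.1 = 0 := by
  have h : Tendsto (fun n => ww n x) atTop (𝓝 (ZMod.toAddCircle (N := 9) (3 * x.1))) := by
    apply tendsto_const_nhds.congr'
    filter_upwards [coord_eventually x.2] with n hn
    rw [ww_apply, hn, map_zero, add_zero]
  constructor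
  · intro h0
    have := tendsto_nhds_unique h h0
    exact ZMod.toAddCircle_injective 9 (by rw [this, map_zero])
  · intro h0
    rw [h0, map_zero] at h
    exact h

/-- General criterion for the sequences of the example to be T-sequences. Here `ψ j` is the
`j`-th basis point `(0, e_j)` and `a` is a point at which all the characters are `1/3`. -/
lemma isTSequence_aux {G : Type} [AddCommGroup G] (S : Type) (a : S) (e : ℕ → S)
    (ev : G → S → UnitAddCircle) (hev0 : ∀ s, ev 0 s = 0)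
    (hadd : ∀ g h s, ev (g + h) s = ev g s + ev h s)
    (hneg : ∀ g s, ev (-g) s = - ev g s)
    (hdet : ∀ g, ev g a = 0 → (∀ j, ev g (e j) = 0) → g = 0)
    (u : ℕ → G) (hua : ∀ n, ev (u n) a = ZMod.toAddCircle (N := 3) 1)
    (hue : ∀ n j, ev (u n) (e j) = if j = n then ZMod.toAddCircle (N := 3) 1 else 0) :
    IsTSequence u := by
  let U : ℕ → AddSubgroup G := fun m =>
    { carrier := {g | (∀ᶠ M in atTop, ev g a = ∑ j ∈ Finset.range M, ev g (e j)) ∧
        ∀ j < m, ev g (e j) = 0}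
      zero_mem' := by
        refine ⟨Eventually.of_forall fun M => ?_, fun j _ => hev0 _⟩
        simp [hev0]
      add_mem' := by
        rintro g h ⟨hg1, hg2⟩ ⟨hh1, hh2⟩
        refine ⟨?_, fun j hj => by rw [hadd, hg2 j hj, hh2 j hj, add_zero]⟩
        filter_upwards [hg1, hh1] with M h1 h2
        simp only [hadd]
        rw [Finset.sum_add_distrib, h1, h2]
      neg_mem' := by
        rintro g ⟨hg1, hg2⟩
        refine ⟨?_, fun j hj => by rw [hneg, hg2 j hj, neg_zero]⟩
        filter_upwards [hg1] with M h1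
        simp only [hneg]
        rw [Finset.sum_neg_distrib, h1] }
  apply isTSequence_of_subgroups U
  · intro g hg
    have hj : ∀ j, ev g (e j) = 0 := fun j => (hg (j + 1)).2 j (Nat.lt_succ_self j)
    apply hdet g _ hj
    obtain ⟨M, hM⟩ := (hg 0).1.exists
    rw [hM]
    exact Finset.sum_eq_zero fun j _ => hj j
  · intro m
    filter_upwards [eventually_ge_atTop m] with n hn
    refine ⟨?_, fun j hj => ?_⟩
    · filter_upwards [eventually_gt_atTop n] with M hM
      rw [hua]
      simp only [hue]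
      rw [Finset.sum_ite_eq' (Finset.range M) n, if_pos (Finset.mem_range.2 hM)]
    · rw [hue, if_neg (by omega)]

lemma kill (B : AddSubgroup A) [TopologicalSpace B] (hB : ∀ y, ((0 : ZMod 9), y) ∈ B)
    (g : B →ₜ+ UnitAddCircle)
    (hg : ∀ j, g ⟨(0, Finsupp.single j 1), hB _⟩ = 0) (y : ℕ →₀ ZMod 3) :
    g ⟨(0, y), hB y⟩ = 0 := by
  let i : (ℕ →₀ ZMod 3) →+ B :=
    { toFun := fun y => ⟨(0, y), hB y⟩
      map_zero' := rfl
      map_add' := fun a b => by
        apply Subtype.ext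
        simp }
  have h : (g : B →+ UnitAddCircle).comp i = 0 := by
    apply Finsupp.addHom_ext
    intro j z
    have hz : (Finsupp.single j z : ℕ →₀ ZMod 3) = z.val • Finsupp.single j 1 := by
      rw [Finsupp.smul_single]
      simp
    rw [hz, map_nsmul]
    show z.val • g ⟨(0, Finsupp.single j 1), hB _⟩ = _
    rw [hg j, smul_zero]
    rfl
  exact DFunLike.congr_fun h y

lemma split_point (B : AddSubgroup A) [TopologicalSpace B] (hB : ∀ y, ((0 : ZMod 9), y) ∈ B)
    (hB' : ∀ x ∈ B, ((x.1 : ZMod 9), (0 : ℕ →₀ ZMod 3)) ∈ B)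
    (g : B →ₜ+ UnitAddCircle) (x : A) (hx : x ∈ B) :
    g ⟨x, hx⟩ = g ⟨(x.1, 0), hB' x hx⟩ + g ⟨(0, x.2), hB _⟩ := by
  rw [← map_add]
  congr 1
  apply Subtype.ext
  simp

lemma mem_A1 (x : A) : x ∈ A1 ↔ 3 * x.1 = 0 := Iff.rfl

lemma mem_A0 (x : A) : x ∈ A0 ↔ x.1 = 0 := Iff.rfl

/-- The topology on `A`. -/
instance : TopologicalSpace A := ⊥

instance : DiscreteTopology A := ⟨rfl⟩

lemma zmod9 : ∀ z : ZMod 9, 3 * z = 0 → ∃ k : Fin 3, z = k.val • (3 : ZMod 9) := by decide

lemma char_A0_A1 : IsTCharacterized (A0.addSubgroupOf A1) := by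
  have hB : ∀ y, ((0 : ZMod 9), y) ∈ A1 := fun y => by rw [mem_A1]; simp
  have h3 : ((3 : ZMod 9), (0 : ℕ →₀ ZMod 3)) ∈ A1 := by
    rw [mem_A1]
    show (3 : ZMod 9) * 3 = 0
    decide
  refine ⟨fun n => ⟨(vv n).comp A1.subtype, continuous_of_discreteTopology⟩, ?_, ?_⟩
  · refine isTSequence_aux A1 ⟨(3, 0), h3⟩ (fun j => ⟨(0, Finsupp.single j 1), hB _⟩)
      (fun g s => g s) (fun _ => rfl) (fun _ _ _ => rfl) (fun _ _ => rfl) ?_ _ ?_ ?_
    · intro g hg1 hg2
      ext x
      obtain ⟨x, hx⟩ := x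
      have hx' : ((x.1 : ZMod 9), (0 : ℕ →₀ ZMod 3)) ∈ A1 := hx
      rw [split_point A1 hB (fun x hx => hx) g x hx, kill A1 hB g hg2, add_zero]
      obtain ⟨k, hk⟩ := zmod9 x.1 hx
      have h4 : (⟨(x.1, 0), hx'⟩ : A1) = k.val • ⟨(3, 0), h3⟩ := by
        apply Subtype.ext
        show (x.1, (0 : ℕ →₀ ZMod 3)) = k.val • ((3 : ZMod 9), (0 : ℕ →₀ ZMod 3))
        rw [hk, Prod.smul_mk, smul_zero]
      rw [h4, map_nsmul, hg1, smul_zero]
      rfl
    · intro n
      show vv n (3, 0) = _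
      rw [vv_apply, ← third]
      simp
    · intro n j
      show vv n (0, Finsupp.single j 1) = _
      rw [vv_apply]
      simp only [map_zero, zero_add]
      rw [Finsupp.single_apply]
      split_ifs <;> simp
  · ext x
    show x.1 ∈ A0 ↔ Tendsto (fun n => vv n x.1) atTop (𝓝 0)
    rw [tendsto_vv, mem_A0]

lemma char_A1_top : IsTCharacterized (A1.addSubgroupOf ⊤) := by
  have hB : ∀ y, ((0 : ZMod 9), y) ∈ (⊤ : AddSubgroup A) := fun y => trivial
  refine ⟨fun n => ⟨(ww n).comp (AddSubgroup.subtype ⊤), continuous_of_discreteTopology⟩, ?_, ?_⟩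
  · refine isTSequence_aux (⊤ : AddSubgroup A) ⟨(1, 0), trivial⟩
      (fun j => ⟨(0, Finsupp.single j 1), hB _⟩)
      (fun g s => g s) (fun _ => rfl) (fun _ _ _ => rfl) (fun _ _ => rfl) ?_ _ ?_ ?_
    · intro g hg1 hg2
      ext x
      obtain ⟨x, hx⟩ := x
      rw [split_point ⊤ hB (fun x hx => trivial) g x hx, kill ⊤ hB g hg2, add_zero]
      have h4 : (⟨(x.1, 0), trivial⟩ : (⊤ : AddSubgroup A)) = x.1.val • ⟨(1, 0), trivial⟩ := by
        apply Subtype.ext
        show (x.1, (0 : ℕ →₀ ZMod 3)) = x.1.val • ((1 : ZMod 9), (0 : ℕ →₀ ZMod 3))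
        rw [Prod.smul_mk, smul_zero]
        simp
      rw [h4, map_nsmul, hg1, smul_zero]
      rfl
    · intro n
      show ww n (1, 0) = _
      rw [ww_apply, ← third]
      simp
    · intro n j
      show ww n (0, Finsupp.single j 1) = _
      rw [ww_apply]
      simp only [mul_zero, map_zero, zero_add]
      rw [Finsupp.single_apply]
      split_ifs <;> simp
  · ext x
    show x.1 ∈ A1 ↔ Tendsto (fun n => ww n x.1) atTop (𝓝 0)
    rw [tendsto_ww, mem_A1]

lemma not_char_A0_top : ¬ IsTCharacterized (A0.addSubgroupOf ⊤) := by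
  rintro ⟨v, ⟨t, htg, ht2, hlim⟩, hH⟩
  let pt : ZMod 9 → (⊤ : AddSubgroup A) := fun z => ⟨(z, 0), trivial⟩
  have hpt : ∀ z : ZMod 9, pt (3 * z) = z.val • pt 3 := by
    intro z
    apply Subtype.ext
    show ((3 * z : ZMod 9), (0 : ℕ →₀ ZMod 3)) = z.val • ((3 : ZMod 9), (0 : ℕ →₀ ZMod 3))
    rw [Prod.smul_mk, smul_zero]
    congr 1
    simp [mul_comm]
  -- the values at `(3, 0)` are `3`-torsion
  have htors : ∀ n, (3 : ℕ) • v n (pt 3) = 0 := by
    intro n
    rw [← map_nsmul]
    have : (3 : ℕ) • pt 3 = 0 := by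
      apply Subtype.ext
      show (3 : ℕ) • ((3 : ZMod 9), (0 : ℕ →₀ ZMod 3)) = 0
      rw [Prod.smul_mk, smul_zero]
      rfl
    rw [this, map_zero]
  have hfin : ({u : UnitAddCircle | (3 : ℕ) • u = 0}).Finite := AddCircle.finite_torsion 1 (by norm_num)
  -- the values at `(3, 0)` are frequently nonzero
  have hfreq : ∃ᶠ n in atTop, v n (pt 3) ≠ 0 := by
    intro h
    have h01 : pt 3 ∈ A0.addSubgroupOf ⊤ := by
      rw [hH]
      show Tendsto _ atTop (𝓝 0)
      apply tendsto_const_nhds.congr'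
      filter_upwards [h] with n hn
      exact (not_not.1 hn).symm
    exact absurd h01 (by
      show ¬ ((3 : ZMod 9) = 0)
      decide)
  have hthree : ∀ n (x : (⊤ : AddSubgroup A)),
      (v n + v n + v n) x = x.1.1.val • v n (pt 3) := by
    intro n x
    show v n x + v n x + v n x = x.1.1.val • v n (pt 3)
    rw [← map_add, ← map_add, ← map_nsmul, ← hpt]
    congr 1
    apply Subtype.ext
    apply Prod.ext
    · show x.1.1 + x.1.1 + x.1.1 = 3 * x.1.1
      ring
    · show x.1.2 + x.1.2 + x.1.2 = 0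
      ext i
      show x.1.2 i + x.1.2 i + x.1.2 i = 0
      generalize x.1.2 i = z
      revert z
      decide
  let K : Set ((⊤ : AddSubgroup A) →ₜ+ UnitAddCircle) :=
    {χ | ∃ n, v n (pt 3) ≠ 0 ∧ χ = v n + v n + v n}
  have hval : ∀ n, (v n + v n + v n) (pt 1) = v n (pt 3) := by
    intro n
    rw [hthree]
    show (1 : ZMod 9).val • v n (pt 3) = _
    rw [show (1 : ZMod 9).val = 1 from rfl, one_smul]
  have hKfin : K.Finite := by
    apply Set.Finite.of_injOn (f := fun χ => χ (pt 1)) (t := {u : UnitAddCircle | (3 : ℕ) • u = 0})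
    · rintro χ ⟨n, -, rfl⟩
      show (3 : ℕ) • (v n + v n + v n) (pt 1) = 0
      rw [hval]
      exact htors n
    · rintro χ ⟨n, -, rfl⟩ ψ ⟨m, -, rfl⟩ h
      have h' : v n (pt 3) = v m (pt 3) := by
        rw [← hval, ← hval]
        exact h
      ext x
      rw [hthree, hthree, h']
    · exact hfin
  have hK0 : (0 : (⊤ : AddSubgroup A) →ₜ+ UnitAddCircle) ∉ K := by
    rintro ⟨n, hn, h0⟩
    apply hn
    rw [← hval, ← h0]
    rfl
  have hlim3 : Tendsto (fun n => v n + v n + v n) atTop (@nhds _ t 0) := by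
    have h1 := (hlim.add hlim).add hlim
    simpa only [add_zero] using h1
  have hopen : Kᶜ ∈ @nhds _ t (0 : (⊤ : AddSubgroup A) →ₜ+ UnitAddCircle) :=
    (@IsClosed.isOpen_compl _ t K (hKfin.isClosed)).mem_nhds hK0
  obtain ⟨n, hn1, hn2⟩ := (hfreq.and_eventually (hlim3.eventually hopen)).exists
  exact hn2 ⟨n, hn1, rfl⟩

lemma dually_A1_top : IsDuallyEmbedded (A1.addSubgroupOf ⊤) := by
  intro χ
  have h3 : ∀ z : ZMod 9, 3 * z = 0 → ((z : ZMod 9), (0 : ℕ →₀ ZMod 3)) ∈ A1 := fun z hz => hz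
  have hB : ∀ y, ((0 : ZMod 9), y) ∈ A1 := fun y => by rw [mem_A1]; simp
  let q : A1 → (A1.addSubgroupOf ⊤) := fun x => ⟨⟨x.1, trivial⟩, x.2⟩
  have hq : ∀ x y : A1, q (x + y) = q x + q y := fun _ _ => rfl
  have h33 : (3 : ZMod 9) * 3 = 0 := by decide
  let c : UnitAddCircle := χ (q ⟨(3, 0), h3 3 h33⟩)
  obtain ⟨t, ht⟩ : ∃ t : UnitAddCircle, (3 : ℤ) • t = c := ⟨DivisibleBy.div c 3,
    DivisibleBy.div_cancel c (by norm_num)⟩
  have ht9 : (9 : ℕ) • t = 0 := by
    have h1 : (3 : ℕ) • c = 0 := by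
      show (3 : ℕ) • χ (q ⟨(3, 0), h3 3 h33⟩) = 0
      rw [← map_nsmul]
      have : (3 : ℕ) • q ⟨(3, 0), h3 3 h33⟩ = 0 := by
        apply Subtype.ext
        apply Subtype.ext
        show (3 : ℕ) • ((3 : ZMod 9), (0 : ℕ →₀ ZMod 3)) = 0
        rw [Prod.smul_mk, smul_zero]
        rfl
      rw [this, map_zero]
    have h2 : (3 : ℕ) • ((3 : ℤ) • t) = 0 := by rw [ht]; exact h1
    have h4 : (3 : ℕ) • ((3 : ℤ) • t) = (9 : ℕ) • t := by
      rw [show ((3 : ℤ) • t) = (3 : ℕ) • t by norm_cast, ← mul_smul]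
      norm_num
    rwa [h4] at h2
  have ht9' : zmultiplesHom UnitAddCircle t ((9 : ℕ) : ℤ) = 0 := by
    rw [zmultiplesHom_apply, natCast_zsmul]
    exact ht9
  let f9 : ZMod 9 →+ UnitAddCircle := ZMod.lift 9 ⟨zmultiplesHom _ t, ht9'⟩
  have hf9 : ∀ z : ZMod 9, f9 z = z.val • t := by
    intro z
    have h1 : f9 (((z.val : ℕ) : ℤ) : ZMod 9) = (z.val : ℤ) • t :=
      ZMod.lift_coe 9 ⟨zmultiplesHom _ t, ht9'⟩ (z.val : ℤ)
    rw [natCast_zsmul, Int.cast_natCast, ZMod.natCast_zmod_val] at h1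
    exact h1
  let fy : (ℕ →₀ ZMod 3) →+ UnitAddCircle :=
    { toFun := fun y => χ (q ⟨(0, y), hB y⟩)
      map_zero' := by
        have : q ⟨(0, 0), hB 0⟩ = 0 := rfl
        rw [this, map_zero]
      map_add' := fun a b => by
        rw [← map_add]
        rfl }
  let ψ : A →+ UnitAddCircle := f9.comp (AddMonoidHom.fst _ _) + fy.comp (AddMonoidHom.snd _ _)
  refine ⟨⟨ψ.comp (AddSubgroup.subtype ⊤), continuous_of_discreteTopology⟩, ?_⟩
  rintro ⟨⟨x, -⟩, hx⟩
  show f9 x.1 + χ (q ⟨(0, x.2), hB x.2⟩) = χ (q ⟨x, hx⟩)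
  obtain ⟨k, hk⟩ := zmod9 x.1 hx
  have h5 : f9 x.1 = χ (q ⟨(x.1, 0), hx⟩) := by
    have h6 : q ⟨(x.1, 0), hx⟩ = k.val • q ⟨(3, 0), h3 3 h33⟩ := by
      apply Subtype.ext
      apply Subtype.ext
      show ((x.1 : ZMod 9), (0 : ℕ →₀ ZMod 3)) = k.val • ((3 : ZMod 9), (0 : ℕ →₀ ZMod 3))
      rw [Prod.smul_mk, smul_zero, ← hk]
    rw [h6, map_nsmul]
    show _ = k.val • c
    rw [← ht]
    rw [hk, map_nsmul, hf9, show ((3 : ZMod 9)).val = 3 from rfl]
    congr 1
  rw [h5, ← map_add, ← hq]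
  congr 2
  apply Subtype.ext
  simp

/-- There are a (countable, discrete) topological abelian group `X` and subgroups
`X₀ ≤ X₁ ≤ X₂` of `X` such that `X₁` is dually embedded in `X₂`, `X₀` is T-characterized in `X₁`,
`X₁` is T-characterized in `X₂`, but `X₀` is not T-characterized in `X₂`. -/
theorem result :
    ∃ (X : Type) (_ : AddCommGroup X) (_ : TopologicalSpace X) (_ : IsTopologicalAddGroup X)
      (X₀ X₁ X₂ : AddSubgroup X), Countable X ∧ DiscreteTopology X ∧ X₀ ≤ X₁ ∧ X₁ ≤ X₂ ∧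
      IsDuallyEmbedded (X₁.addSubgroupOf X₂) ∧
      IsTCharacterized (X₀.addSubgroupOf X₁) ∧ IsTCharacterized (X₁.addSubgroupOf X₂) ∧
      ¬ IsTCharacterized (X₀.addSubgroupOf X₂) := by
  refine ⟨A, inferInstance, inferInstance, inferInstance, A0, A1, ⊤, inferInstance, inferInstance,
    ?_, le_top, dually_A1_top, char_A0_A1, char_A1_top, not_char_A0_top⟩
  intro x hx
  rw [mem_A0] at hx
  rw [mem_A1, hx, mul_zero]

end Pool.Agent.Results.MP_24a371_gt.NotTransitive
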